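import Pool.Agent.Helper98.Lang.Defs

/-! Packet P14 CLS (2081). -/

set_option autoImplicit false

open Finset

namespace Pool.Agent.Helper53.Lang

open Pool.Agent.Helper98.Lang

theorem card_divisors_le : ∀ r : ℕ, r ≠ 0 → r.divisors.card ≤ 2 ^ (r.primeFactorsList.length) := by
  intro r
  induction r using Nat.strong_induction_on with
  | _ r ih =>
    intro hr
    by_cases h1 : r = 1
    · subst h1; simp
    · have h2 : 2 ≤ r := by omega
      set p := r.minFac with hp
      have hpp : p.Prime := Nat.minFac_prime h1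
      obtain ⟨m, hm⟩ : p ∣ r := Nat.minFac_dvd r
      have hm0 : m ≠ 0 := by rintro rfl; simp at hm; omega
      have hmlt : m < r := by
        rw [hm]
        calc m = 1 * m := (one_mul m).symm
          _ < p * m := Nat.mul_lt_mul_of_pos_right hpp.one_lt (Nat.pos_of_ne_zero hm0)
      have hsub : r.divisors ⊆ m.divisors ∪ m.divisors.image (fun d => p * d) := by
        intro d hd
        rw [Nat.mem_divisors] at hd
        rw [mem_union, mem_image]
        by_cases hpd : p ∣ d
        · right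
          obtain ⟨e, he⟩ := hpd
          refine ⟨e, ?_, he.symm⟩
          rw [Nat.mem_divisors]
          refine ⟨?_, hm0⟩
          have := hd.1
          rw [he, hm] at this
          exact Nat.dvd_of_mul_dvd_mul_left hpp.pos this
        · left
          rw [Nat.mem_divisors]
          refine ⟨?_, hm0⟩
          have hc : Nat.Coprime d p := (Nat.Coprime.symm ((Nat.Prime.coprime_iff_not_dvd hpp).2 hpd))
          have := hd.1
          rw [hm] at this
          exact hc.dvd_of_dvd_mul_left this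
      have hlen : r.primeFactorsList.length = m.primeFactorsList.length + 1 := by
        have h3 : r.primeFactorsList = p :: (r / p).primeFactorsList := by
          obtain ⟨k, rfl⟩ : ∃ k, r = k + 2 := ⟨r - 2, by omega⟩
          rw [Nat.primeFactorsList]
        have h4 : r / p = m := by
          rw [hm]; exact Nat.mul_div_cancel_left m hpp.pos
        rw [h3, h4]; rfl
      rw [hlen, pow_succ]
      calc r.divisors.card ≤ (m.divisors ∪ m.divisors.image (fun d => p * d)).card :=
            card_le_card hsub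
        _ ≤ m.divisors.card + (m.divisors.image (fun d => p * d)).card := card_union_le _ _
        _ ≤ m.divisors.card + m.divisors.card := by
            exact Nat.add_le_add_left card_image_le _
        _ ≤ 2 ^ m.primeFactorsList.length * 2 := by
            have := ih m hmlt hm0
            omega

theorem pow_len_le (p : ℕ) : ∀ r : ℕ, r ≠ 0 → (∀ q, q.Prime → q ∣ r → p ≤ q) →
    p ^ (r.primeFactorsList.length) ≤ r := by
  intro r hr h
  have h1 : r.primeFactorsList.prod = r := Nat.prod_primeFactorsList hr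
  have h2 : p ^ r.primeFactorsList.length ≤ r.primeFactorsList.prod := by
    apply List.pow_card_le_prod
    intro q hq
    exact h q (Nat.prime_of_mem_primeFactorsList hq) (Nat.dvd_of_mem_primeFactorsList hq)
  rwa [h1] at h2

theorem cls_facts (hDDM : GDDM) {A z X s n w y : ℕ} (hX : X ≤ z ^ A) (hn1 : 1 ≤ n) (hnX : n ≤ X)
    (hs : 1 ≤ s) (hw : w ^ (s + 1) ≤ z) (hy : ∀ p : ℕ, p ^ s ≤ z → p ≤ y) (hy1 : s = 1 → z ≤ y)
    (h : Cls z s n) : ∃ b, b ∈ Icc 1 z ∧ Smooth y b ∧ (2 ≤ s → z < b ^ 2) ∧ b ∣ n ∧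
      Rough w (n / b) ∧ DD n ≤ 2 ^ (A * (s + 1)) * DD b := by
  obtain ⟨b, r, p, hbr, hb1, hbz, hp, hpr, hmin, hsm, hzbp, hzp, hps⟩ := h
  have hr0 : r ≠ 0 := by rintro rfl; simp at hbr; omega
  have hb0 : b ≠ 0 := by omega
  have hrn : r ≤ n := by
    rw [hbr]; exact Nat.le_mul_of_pos_left r (by omega)
  have hA : 1 ≤ A := by
    by_contra hA
    have hA0 : A = 0 := by omega
    subst hA0
    have : r = 1 := by simp at hX; omega
    subst this
    exact hp.one_lt.ne' (Nat.dvd_one.1 hpr)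
  have hlen : r.primeFactorsList.length ≤ A * (s + 1) := by
    have h1 : p ^ r.primeFactorsList.length ≤ r := pow_len_le p r hr0 hmin
    have h2 : z ^ A < (p ^ (s + 1)) ^ A := Nat.pow_lt_pow_left hzp (by omega)
    rw [← pow_mul, mul_comm (s + 1) A] at h2
    have h3 : p ^ r.primeFactorsList.length < p ^ (A * (s + 1)) :=
      lt_of_le_of_lt (h1.trans (hrn.trans (hnX.trans hX))) h2
    exact ((Nat.pow_lt_pow_iff_right hp.one_lt).1 h3).le
  have hwp : w < p := by
    by_contra hc
    push Not at hc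
    have := Nat.pow_le_pow_left hc (s + 1)
    omega
  refine ⟨b, mem_Icc.2 ⟨hb1, hbz⟩, ?_, ?_, ⟨r, hbr⟩, ?_, ?_⟩
  · intro p' hp' hp'b
    rcases Nat.lt_or_ge 1 s with h1 | h1
    · have h2 : p ^ s ≤ z := by
        rcases hps with h3 | h3
        · omega
        · exact h3
      exact (hsm p' hp' hp'b).trans (hy p h2)
    · have h2 : s = 1 := by omega
      exact (Nat.le_of_dvd (by omega) hp'b).trans (hbz.trans (hy1 h2))
  · intro hs2
    have h2 : p ^ s ≤ z := by
      rcases hps with h3 | h3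
      · omega
      · exact h3
    have h3 : p ^ 2 ≤ z := (Nat.pow_le_pow_right hp.pos hs2).trans h2
    by_contra hc
    push Not at hc
    have h4 : (b * p) ^ 2 ≤ z * z := by
      rw [mul_pow]; exact Nat.mul_le_mul hc h3
    have h5 : z * z < (b * p) ^ 2 := by
      rw [sq]; exact Nat.mul_self_lt_mul_self hzbp
    omega
  · have h6 : n / b = r := by rw [hbr]; exact Nat.mul_div_cancel_left r (by omega)
    rw [h6]
    intro p' hp' hp'r
    exact lt_of_lt_of_le hwp (hmin p' hp' hp'r)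
  · have h7 := hDDM.2.1 r b hr0 hb0
    have h8 : r.divisors.card ≤ 2 ^ (A * (s + 1)) :=
      (card_divisors_le r hr0).trans (Nat.pow_le_pow_right (by norm_num) hlen)
    rw [hbr, mul_comm b r]
    exact h7.trans (Nat.mul_le_mul_right _ h8)

theorem DD_le_self (hDDM : GDDM) (n : ℕ) : DD n ≤ n :=
  (hDDM.2.2 n).trans (Nat.card_divisors_le_self n)

/-- the analytic inequality for the constants -/
theorem const_ineq (A s : ℕ) :
    (2 : ℝ) ^ (A * (s + 1)) * (2 * ((s : ℝ) + 1)) * (Real.exp (A + 2) *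
      Real.exp (-((A : ℝ) + 2) * s)) ≤ 2 ^ A * 2 * Real.exp (A + 2) * Real.exp (-(s : ℝ)) := by
  have h1 : (2 : ℝ) ≤ Real.exp 1 := by
    have := Real.add_one_le_exp (1 : ℝ); linarith
  have h2 : (2 : ℝ) ^ (A * s) ≤ Real.exp ((A : ℝ) * s) := by
    calc (2 : ℝ) ^ (A * s) ≤ (Real.exp 1) ^ (A * s) := by gcongr
      _ = Real.exp ((A : ℝ) * s) := by
        rw [← Real.exp_nat_mul]; push_cast; ring_nf
  have h3 : (s : ℝ) + 1 ≤ Real.exp s := Real.add_one_le_exp _
  have h4 : (2 : ℝ) ^ (A * (s + 1)) = 2 ^ A * 2 ^ (A * s) := by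
    rw [mul_add, mul_one, pow_add]; ring
  have h5 : (2 : ℝ) ^ (A * s) * ((s : ℝ) + 1) * Real.exp (-((A : ℝ) + 2) * s) ≤
      Real.exp (-(s : ℝ)) := by
    calc (2 : ℝ) ^ (A * s) * ((s : ℝ) + 1) * Real.exp (-((A : ℝ) + 2) * s)
        ≤ Real.exp ((A : ℝ) * s) * Real.exp s * Real.exp (-((A : ℝ) + 2) * s) := by
          gcongr
      _ = Real.exp (-(s : ℝ)) := by
          rw [← Real.exp_add, ← Real.exp_add]; ring_nf
  rw [h4]
  have h6 : 0 ≤ (2 : ℝ) ^ A * 2 * Real.exp (A + 2) := by positivity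
  calc (2 : ℝ) ^ A * 2 ^ (A * s) * (2 * ((s : ℝ) + 1)) * (Real.exp (A + 2) *
      Real.exp (-((A : ℝ) + 2) * s))
      = 2 ^ A * 2 * Real.exp (A + 2) *
        (2 ^ (A * s) * ((s : ℝ) + 1) * Real.exp (-((A : ℝ) + 2) * s)) := by ring
    _ ≤ 2 ^ A * 2 * Real.exp (A + 2) * Real.exp (-(s : ℝ)) :=
        mul_le_mul_of_nonneg_left h5 h6

open Classical in
theorem cls : GRank → GSel → GDDM → GCls := by
  intro hRank hSel hDDM A η hη
  obtain ⟨C1, y1, hC1, hy1, hR⟩ := hRank (2 * (A : ℝ) + 4) η (by positivity) hη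
  set lam : ℝ := 2 * (A : ℝ) + 4 with hlam
  set y0 : ℕ := max y1 (4 ^ (A + 2)) with hy0
  have h16 : 16 ≤ y0 := by
    have : (4 : ℕ) ^ 2 ≤ 4 ^ (A + 2) := Nat.pow_le_pow_right (by norm_num) (by omega)
    exact le_trans (by simpa using this) (le_max_right _ _)
  refine ⟨2 ^ A * 2 * Real.exp (A + 2) * C1, y0, by positivity, le_max_right _ _, ?_⟩
  intro z X s g Y E hX hLev hs hz
  obtain ⟨hg, hY, hE, hlev⟩ := hLev
  -- sizes
  have hz16 : 16 ≤ z := by
    calc 16 ≤ y0 := h16
      _ = y0 ^ 1 := (pow_one _).symm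
      _ ≤ y0 ^ s := Nat.pow_le_pow_right (by omega) hs
      _ ≤ z := hz
  have hzR : (16 : ℝ) ≤ z := by exact_mod_cast hz16
  have hz0 : (0 : ℝ) < z := by linarith
  set L : ℝ := Real.log z with hL
  have hL0 : 0 < L := Real.log_pos (by linarith)
  have hsR : (1 : ℝ) ≤ s := by exact_mod_cast hs
  -- w
  set x : ℝ := (z : ℝ) ^ (1 / ((s : ℝ) + 1)) with hx
  have hx0 : 0 < x := Real.rpow_pos_of_pos hz0 _
  have hxpow : x ^ (s + 1) = z := by
    rw [hx, ← Real.rpow_natCast, ← Real.rpow_mul hz0.le]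
    push_cast
    rw [one_div, inv_mul_cancel₀ (by positivity), Real.rpow_one]
  set w : ℕ := ⌊x⌋₊ with hwdef
  have hwx : (w : ℝ) ≤ x := Nat.floor_le hx0.le
  have hw : w ^ (s + 1) ≤ z := by
    have : (w : ℝ) ^ (s + 1) ≤ z := by
      rw [← hxpow]; gcongr
    exact_mod_cast this
  have hw4 : 4 ≤ w := by
    have h1 : 4 ^ (s + 1) ≤ z := by
      calc 4 ^ (s + 1) ≤ 4 ^ (2 * s) := Nat.pow_le_pow_right (by norm_num) (by omega)
        _ = 16 ^ s := by rw [pow_mul]; norm_num
        _ ≤ y0 ^ s := Nat.pow_le_pow_left h16 s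
        _ ≤ z := hz
    apply Nat.le_floor
    have h2 : ((4 : ℕ) : ℝ) ^ (s + 1) ≤ x ^ (s + 1) := by
      rw [hxpow]; exact_mod_cast h1
    exact le_of_pow_le_pow_left₀ (by omega) hx0.le h2
  have hwR : (4 : ℝ) ≤ w := by exact_mod_cast hw4
  have hxw : x < w + 1 := Nat.lt_floor_add_one x
  have hlogw : L / (2 * ((s : ℝ) + 1)) ≤ Real.log w := by
    have h1 : x ≤ (w : ℝ) ^ 2 := by nlinarith
    have h2 : Real.log x ≤ Real.log ((w : ℝ) ^ 2) := Real.log_le_log hx0 h1
    rw [Real.log_pow, hx, Real.log_rpow hz0] at h2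
    push_cast at h2
    rw [← hL] at h2
    have h3 : L / (2 * ((s : ℝ) + 1)) = (1 / ((s : ℝ) + 1) * L) / 2 := by
      field_simp
    rw [h3]; linarith [h2]
  have hlogw0 : 0 < Real.log w := Real.log_pos (by linarith)
  have hw2 : w ^ 2 ≤ z := (Nat.pow_le_pow_right (by omega) (by omega)).trans hw
  -- y
  set x' : ℝ := (z : ℝ) ^ (1 / (s : ℝ)) with hx'
  have hx'0 : 0 < x' := Real.rpow_pos_of_pos hz0 _
  have hx'pow : x' ^ s = z := by
    rw [hx', ← Real.rpow_natCast, ← Real.rpow_mul hz0.le]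
    rw [one_div, inv_mul_cancel₀ (by positivity), Real.rpow_one]
  set y : ℕ := ⌊x'⌋₊ with hydef
  have hyx : (y : ℝ) ≤ x' := Nat.floor_le hx'0.le
  have hy : ∀ p : ℕ, p ^ s ≤ z → p ≤ y := by
    intro p hp
    apply Nat.le_floor
    have h2 : (p : ℝ) ^ s ≤ x' ^ s := by
      rw [hx'pow]; exact_mod_cast hp
    exact le_of_pow_le_pow_left₀ (by omega) hx'0.le h2
  have hy1' : s = 1 → z ≤ y := by
    intro h1
    apply hy
    rw [h1, pow_one]
  have hyy0 : y0 ≤ y := hy y0 hz
  have hy16 : 16 ≤ y := h16.trans hyy0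
  have hyR : (16 : ℝ) ≤ y := by exact_mod_cast hy16
  have hlogy0 : 0 < Real.log y := Real.log_pos (by linarith)
  have hlogy : Real.log y ≤ L / s := by
    have h1 : Real.log y ≤ Real.log x' := Real.log_le_log (by linarith) hyx
    rw [hx', Real.log_rpow hz0, ← hL] at h1
    calc Real.log y ≤ 1 / (s : ℝ) * L := h1
      _ = L / s := by ring
  have hlogyL : Real.log y ≤ L := hlogy.trans (div_le_self hL0.le hsR)
  -- beta
  set β : ℝ := lam * s / L with hβ
  have hlam0 : 0 < lam := by positivity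
  have hβ0 : 0 ≤ β := by positivity
  have hβle : β ≤ lam / Real.log y := by
    rw [hβ, div_le_div_iff₀ hL0 hlogy0]
    rw [le_div_iff₀ (by positivity)] at hlogy
    calc lam * s * Real.log y = lam * (Real.log y * s) := by ring
      _ ≤ lam * L := by gcongr
  set B : Finset ℕ := (Icc 1 z).filter (fun b => Smooth y b ∧ (2 ≤ s → z < b ^ 2)) with hB
  set T : ℕ → Finset ℕ := fun b => (Icc 1 X).filter (fun n => b ∣ n ∧ Rough w (n / b)) with hT
  -- sum over the class
  have hstep1 : ∑ n ∈ (Icc 1 X).filter (fun n => Cls z s n), g n * DD n ≤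
      ∑ b ∈ B, ∑ n ∈ T b, g n * ((2 : ℝ) ^ (A * (s + 1)) * DD b) := by
    have hch : ∀ n ∈ (Icc 1 X).filter (fun n => Cls z s n), ∃ b, b ∈ B ∧ n ∈ T b ∧
        DD n ≤ 2 ^ (A * (s + 1)) * DD b := by
      intro n hn
      rw [mem_filter, mem_Icc] at hn
      obtain ⟨b, hb1, hb2, hb3, hb4, hb5, hb6⟩ :=
        cls_facts hDDM hX hn.1.1 hn.1.2 hs hw hy hy1' hn.2
      refine ⟨b, ?_, ?_, hb6⟩
      · rw [hB, mem_filter]; exact ⟨hb1, hb2, hb3⟩
      · rw [hT]; simp only; rw [mem_filter, mem_Icc]; exact ⟨hn.1, hb4, hb5⟩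
    choose! f hf using hch
    calc ∑ n ∈ (Icc 1 X).filter (fun n => Cls z s n), g n * DD n
        ≤ ∑ n ∈ (Icc 1 X).filter (fun n => Cls z s n),
            ∑ b ∈ B, if n ∈ T b then g n * ((2 : ℝ) ^ (A * (s + 1)) * DD b) else 0 := by
          apply sum_le_sum
          intro n hn
          obtain ⟨h1, h2, h3⟩ := hf n hn
          have h4 : g n * DD n ≤ g n * ((2 : ℝ) ^ (A * (s + 1)) * DD (f n)) := by
            apply mul_le_mul_of_nonneg_left _ (hg n)
            exact_mod_cast h3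
          refine h4.trans ?_
          have h5 := single_le_sum (s := B)
            (f := fun b => if n ∈ T b then g n * ((2 : ℝ) ^ (A * (s + 1)) * DD b) else 0)
            (fun b _ => by
              split_ifs
              · have := hg n; positivity
              · exact le_rfl) h1
          simpa [h2] using h5
      _ = ∑ b ∈ B, ∑ n ∈ (Icc 1 X).filter (fun n => Cls z s n),
            if n ∈ T b then g n * ((2 : ℝ) ^ (A * (s + 1)) * DD b) else 0 := sum_comm
      _ ≤ ∑ b ∈ B, ∑ n ∈ T b, g n * ((2 : ℝ) ^ (A * (s + 1)) * DD b) := by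
          apply sum_le_sum
          intro b _
          rw [← sum_filter]
          apply sum_le_sum_of_subset_of_nonneg
          · intro n hn
            rw [mem_filter] at hn
            exact hn.2
          · intro n _ _
            have := hg n; positivity
  have hstep2 : ∀ b ∈ B, ∑ n ∈ T b, g n * ((2 : ℝ) ^ (A * (s + 1)) * DD b) ≤
      (2 : ℝ) ^ (A * (s + 1)) * DD b * (Y / (b * Real.log w) + w ^ 2 * E) := by
    intro b hb
    rw [hB, mem_filter, mem_Icc] at hb
    have h1 : ∑ n ∈ T b, g n ≤ Y / (b * Real.log w) + w ^ 2 * E := by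
      apply hSel X b w g Y E hb.1.1 (by omega) hg hY hE
      intro m hm1 hm2
      have h2 := hlev (b * m) (Nat.mul_pos hb.1.1 hm1) (by
        calc b * m ≤ z * z := Nat.mul_le_mul hb.1.2 (hm2.trans hw2)
          _ = z ^ 2 := (sq z).symm)
      push_cast at h2
      exact h2
    rw [← sum_mul, mul_comm]
    apply mul_le_mul_of_nonneg_left h1 (by positivity)
  -- the Rankin sum
  have hstep3 : ∑ b ∈ B, (DD b : ℝ) / b ≤
      Real.exp (A + 2) * Real.exp (-((A : ℝ) + 2) * s) * (C1 * L ^ (1 + η)) := by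
    have h1 := hR y z ((le_max_left _ _).trans hyy0) β hβ0 hβle
    have h2 : ∑ b ∈ B, (DD b : ℝ) / b ≤ ∑ b ∈ B, Real.exp (A + 2) *
        Real.exp (-((A : ℝ) + 2) * s) * ((DD b : ℝ) * (b : ℝ) ^ (β - 1)) := by
      apply sum_le_sum
      intro b hb
      rw [hB, mem_filter, mem_Icc] at hb
      have hbR : (1 : ℝ) ≤ b := by exact_mod_cast hb.1.1
      have hb0 : (0 : ℝ) < b := by linarith
      have h3 : 1 ≤ Real.exp (A + 2) * Real.exp (-((A : ℝ) + 2) * s) * (b : ℝ) ^ β := by
        rcases Nat.lt_or_ge 1 s with hs1 | hs1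
        · have h4 : (z : ℝ) < (b : ℝ) ^ 2 := by exact_mod_cast hb.2.2 hs1
          have h5 : L ≤ 2 * Real.log b := by
            have := Real.log_le_log hz0 h4.le
            rw [Real.log_pow] at this
            push_cast at this
            exact this
          have h6 : Real.exp (((A : ℝ) + 2) * s) ≤ (b : ℝ) ^ β := by
            rw [Real.rpow_def_of_pos hb0]
            apply Real.exp_le_exp.2
            have h7 : ((A : ℝ) + 2) * s = L / 2 * β := by
              rw [hβ, hlam]; field_simp; ring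
            rw [h7]
            apply mul_le_mul_of_nonneg_right _ hβ0
            linarith
          have h8 : Real.exp (-((A : ℝ) + 2) * s) * Real.exp (((A : ℝ) + 2) * s) = 1 := by
            rw [← Real.exp_add, show -((A : ℝ) + 2) * s + ((A : ℝ) + 2) * s = 0 by ring, Real.exp_zero]
          calc (1 : ℝ) ≤ Real.exp (A + 2) := Real.one_le_exp (by positivity)
            _ = Real.exp (A + 2) * (Real.exp (-((A : ℝ) + 2) * s) *
                Real.exp (((A : ℝ) + 2) * s)) := by rw [h8, mul_one]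
            _ ≤ Real.exp (A + 2) * (Real.exp (-((A : ℝ) + 2) * s) * (b : ℝ) ^ β) := by
                gcongr
            _ = _ := by ring
        · have hs2 : s = 1 := by omega
          have h4 : Real.exp ((A : ℝ) + 2) * Real.exp (-((A : ℝ) + 2) * s) = 1 := by
            rw [hs2, ← Real.exp_add]; simp
          rw [h4, one_mul]
          exact Real.one_le_rpow hbR hβ0
      have h9 : (b : ℝ) ^ (β - 1) = (b : ℝ) ^ β / b := by
        rw [Real.rpow_sub hb0, Real.rpow_one]
      rw [h9]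
      have h10 : 0 ≤ (DD b : ℝ) / b := by positivity
      calc (DD b : ℝ) / b = 1 * ((DD b : ℝ) / b) := (one_mul _).symm
        _ ≤ (Real.exp (A + 2) * Real.exp (-((A : ℝ) + 2) * s) * (b : ℝ) ^ β) *
            ((DD b : ℝ) / b) := mul_le_mul_of_nonneg_right h3 h10
        _ = _ := by ring
    refine h2.trans ?_
    rw [← mul_sum]
    apply mul_le_mul_of_nonneg_left _ (by positivity)
    have h11 : ∑ b ∈ B, (DD b : ℝ) * (b : ℝ) ^ (β - 1) ≤
        ∑ b ∈ (Icc 1 z).filter (Smooth y), (DD b : ℝ) * (b : ℝ) ^ (β - 1) := by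
      apply sum_le_sum_of_subset_of_nonneg
      · intro b hb
        rw [hB, mem_filter] at hb
        rw [mem_filter]
        exact ⟨hb.1, hb.2.1⟩
      · intro b _ _
        positivity
    refine (h11.trans h1).trans ?_
    gcongr
  have hstep4 : ∑ b ∈ B, (DD b : ℝ) ≤ (z : ℝ) ^ 2 := by
    calc ∑ b ∈ B, (DD b : ℝ) ≤ ∑ b ∈ B, (z : ℝ) := by
          apply sum_le_sum
          intro b hb
          rw [hB, mem_filter, mem_Icc] at hb
          exact_mod_cast (DD_le_self hDDM b).trans hb.1.2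
      _ = (B.card : ℝ) * z := by rw [sum_const, nsmul_eq_mul]
      _ ≤ z * z := by
          gcongr
          have : B.card ≤ (Icc 1 z).card := card_le_card (filter_subset _ _)
          rw [Nat.card_Icc] at this
          simpa using this
      _ = (z : ℝ) ^ 2 := (sq _).symm
  -- assembling
  refine hstep1.trans ((sum_le_sum hstep2).trans ?_)
  have h20 : ∑ b ∈ B, (2 : ℝ) ^ (A * (s + 1)) * DD b * (Y / (b * Real.log w) + w ^ 2 * E) =
      (2 : ℝ) ^ (A * (s + 1)) * (Y / Real.log w) * (∑ b ∈ B, (DD b : ℝ) / b) +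
      (2 : ℝ) ^ (A * (s + 1)) * (w ^ 2 * E) * (∑ b ∈ B, (DD b : ℝ)) := by
    rw [mul_sum, mul_sum, ← sum_add_distrib]
    apply sum_congr rfl
    intro b hb
    rw [hB, mem_filter, mem_Icc] at hb
    have hb0 : (b : ℝ) ≠ 0 := by
      have := hb.1.1
      positivity
    field_simp
  rw [h20]
  apply add_le_add
  · have h21 : Y / Real.log w ≤ Y * (2 * ((s : ℝ) + 1)) / L := by
      rw [div_le_div_iff₀ hlogw0 hL0]
      rw [div_le_iff₀ (by positivity)] at hlogw
      calc Y * L ≤ Y * (Real.log w * (2 * ((s : ℝ) + 1))) := by gcongr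
        _ = Y * (2 * ((s : ℝ) + 1)) * Real.log w := by ring
    have h22 : L ^ (1 + η) = L * L ^ η := by
      rw [Real.rpow_add hL0, Real.rpow_one]
    have h23 : 0 ≤ ∑ b ∈ B, (DD b : ℝ) / b := sum_nonneg fun b _ => by positivity
    have h24 := const_ineq A s
    calc (2 : ℝ) ^ (A * (s + 1)) * (Y / Real.log w) * (∑ b ∈ B, (DD b : ℝ) / b)
        ≤ (2 : ℝ) ^ (A * (s + 1)) * (Y * (2 * ((s : ℝ) + 1)) / L) *
          (Real.exp (A + 2) * Real.exp (-((A : ℝ) + 2) * s) * (C1 * L ^ (1 + η))) := by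
          gcongr
      _ = ((2 : ℝ) ^ (A * (s + 1)) * (2 * ((s : ℝ) + 1)) * (Real.exp (A + 2) *
            Real.exp (-((A : ℝ) + 2) * s))) * (C1 * Y * L ^ η) := by
          rw [h22]; field_simp
      _ ≤ (2 ^ A * 2 * Real.exp (A + 2) * Real.exp (-(s : ℝ))) * (C1 * Y * L ^ η) := by
          gcongr
      _ = _ := by ring
  · have h25 : (w : ℝ) ^ 2 ≤ z := by exact_mod_cast hw2
    calc (2 : ℝ) ^ (A * (s + 1)) * (w ^ 2 * E) * (∑ b ∈ B, (DD b : ℝ))
        ≤ (2 : ℝ) ^ (A * (s + 1)) * (z * E) * ((z : ℝ) ^ 2) := by gcongr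
      _ = (2 : ℝ) ^ (A * (s + 1)) * (z : ℝ) ^ 3 * E := by ring

end Pool.Agent.Helper53.Lang
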